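import Pool.Agent.PFC.StmtsB5a

/-!
Squad PFC, block B5a, row LOC: the local structure (assembly of SPV, LFT, SUV, INJ).
-/

namespace Pool.Agent.PFC.B5a.H17

theorem loc : LocStmt := by
  intro fvt omz trs bki fdb cug cas uns qfr alv muv nil kwa kwb spv lft suv inj
  intro ℓ _ F V B _ _ _ _ _ _ _ β n π hV hB
  have hsep : Sep F β := spv fvt omz trs bki fdb cug cas uns qfr alv ℓ F V B β n π hV hB
  obtain ⟨f, hf⟩ := lft omz muv nil kwa kwb ℓ F V B β n π hV hsep hB.ps
  exact ⟨f, hf, inj F V B β n π f hB.pos hsep hB.sur hB.nil hf,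
    suv nil ℓ F V B β n π f hV hB.sur hB.cop hf⟩

end Pool.Agent.PFC.B5a.H17
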