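import Pool.Agent.PFC.StmtsB4a

/-!
Squad PFC, block B4, row YSP: a submodule (quotient) with the Higman property is a direct
summand.
-/

namespace Pool.Agent.PFC.H17

section

variable {F H M N : Type} [Field F] [Group H] [Fintype H] [AddCommGroup M] [Module F M]
  [AddCommGroup N] [Module F N]

/-- The averaged map Σ σ h ∘ t ∘ ρ h⁻¹. -/
noncomputable def avg (ρ : H →* (M →ₗ[F] M)) (σ : H →* (N →ₗ[F] N)) (t : M →ₗ[F] N) :
    M →ₗ[F] N :=
  ∑ h : H, (σ h).comp (t.comp (ρ h⁻¹))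

theorem avg_apply (ρ : H →* (M →ₗ[F] M)) (σ : H →* (N →ₗ[F] N)) (t : M →ₗ[F] N) (m : M) :
    avg ρ σ t m = ∑ h : H, σ h (t (ρ h⁻¹ m)) := by
  unfold avg
  rw [LinearMap.sum_apply]
  rfl

theorem avg_equiv (ρ : H →* (M →ₗ[F] M)) (σ : H →* (N →ₗ[F] N)) (t : M →ₗ[F] N)
    (g : H) (m : M) : avg ρ σ t (ρ g m) = σ g (avg ρ σ t m) := by
  rw [avg_apply, avg_apply, map_sum]
  rw [← Equiv.sum_comp (Equiv.mulLeft g)]
  refine Finset.sum_congr rfl ?_
  intro h _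
  have h1 : ρ (Equiv.mulLeft g h)⁻¹ (ρ g m) = ρ h⁻¹ m := by
    have : ρ (Equiv.mulLeft g h)⁻¹ (ρ g m) = (ρ (Equiv.mulLeft g h)⁻¹ * ρ g) m := rfl
    rw [this, ← map_mul]
    congr 2
    simp [mul_assoc]
  rw [h1]
  have h2 : σ (Equiv.mulLeft g h) (t (ρ h⁻¹ m)) = (σ g * σ h) (t (ρ h⁻¹ m)) := by
    rw [← map_mul]
    rfl
  rw [h2]
  rfl

end

theorem ysp : YspStmt := by
  intro F H M N _ _ _ _ _ _ _ ρ σ hσ
  obtain ⟨a, ha⟩ := hσ
  constructor
  · intro i hi hinj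
    obtain ⟨p0, hp0⟩ := LinearMap.exists_leftInverse_of_injective i
      (LinearMap.ker_eq_bot.mpr hinj)
    have hp : ∀ n, p0 (i n) = n := fun n => LinearMap.congr_fun hp0 n
    refine ⟨avg ρ σ (a.comp p0), fun h m => avg_equiv ρ σ _ h m, ?_⟩
    intro n
    rw [avg_apply]
    rw [← ha n]
    conv_rhs => rw [← ha n]
    refine Finset.sum_congr rfl ?_
    intro h _
    rw [LinearMap.comp_apply, ← hi, hp]
  · intro p hp hsur
    obtain ⟨i0, hi0⟩ := LinearMap.exists_rightInverse_of_surjective p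
      (LinearMap.range_eq_top.mpr hsur)
    have hi : ∀ n, p (i0 n) = n := fun n => LinearMap.congr_fun hi0 n
    refine ⟨avg σ ρ (i0.comp a), fun h n => avg_equiv σ ρ _ h n, ?_⟩
    intro n
    rw [avg_apply, map_sum]
    conv_rhs => rw [← ha n]
    refine Finset.sum_congr rfl ?_
    intro h _
    rw [hp, LinearMap.comp_apply, hi]

end Pool.Agent.PFC.H17
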